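import Mathlib

set_option autoImplicit false

namespace Pool.Agent.Results.MP_847604_al.Neg

open Matrix MatrixGroups Topology

instance : Fact (Nat.Prime 3) := ⟨by decide⟩

abbrev O := ℤ_[3]

abbrev G := SL(2, O)

noncomputable def M (a b c d : O) (h : a * d - b * c = 1) : G :=
  ⟨!![a, b; c, d], by rwa [det_fin_two_of]⟩

lemma ex (g : G) : ∃ a b c d h, g = M a b c d h :=
  ⟨g 0 0, g 0 1, g 1 0, g 1 1, (det_fin_two _).symm.trans g.2, Subtype.ext (eta_fin_two _)⟩

lemma mul (a b c d h a' b' c' d' h') : M a b c d h * M a' b' c' d' h' =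
    M (a * a' + b * c') (a * b' + b * d') (c * a' + d * c') (c * b' + d * d')
      (by linear_combination (a' * d' - b' * c') * h + h') :=
  Subtype.ext (mul_fin_two ..)

lemma inj {a b c d h a' b' c' d' h'} :
    M a b c d h = M a' b' c' d' h' ↔ a = a' ∧ b = b' ∧ c = c' ∧ d = d' :=
  ⟨fun e => ⟨congrArg (· 0 0) e, congrArg (· 0 1) e, congrArg (· 1 0) e, congrArg (· 1 1) e⟩,
    by rintro ⟨rfl, rfl, rfl, rfl⟩; rfl⟩

lemma inv (a b c d h) : (M a b c d h)⁻¹ = M d (-b) (-c) a (by linear_combination h) := by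
  rw [inv_eq_iff_mul_eq_one, mul, show (1 : G) = M 1 0 0 1 (by ring) from Subtype.ext one_fin_two, inj]
  exact ⟨by linear_combination h, by ring, by ring, by linear_combination h⟩

variable {N : Subgroup G} (hN : N.Normal)
include hN

lemma tri {g : G} (hg : g ∈ N) (hc : g 1 0 ≠ 0) :
    ∃ u y w h, M u y 0 w h ∈ N ∧ u ^ 2 - 1 ≠ 0 := by
  obtain ⟨a, b, c, d, h, rfl⟩ := ex g
  replace hc : c ≠ 0 := hc
  have h3 : PadicInt.toZMod (1 + 3 * c) = 1 := by
    rw [map_add, map_mul, map_one, map_ofNat]; simp; left; rfl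
  have nz : ∀ x : O, PadicInt.toZMod x = 2 → x ≠ 0 := fun x h e => by
    rw [e, map_zero] at h
    exact absurd h (by decide)
  obtain ⟨r, hr⟩ : ∃ r, (1 + 3 * c) * r = 1 := by
    refine IsUnit.exists_right_inv (by_contra fun e => ?_)
    have : 1 + 3 * c ∈ RingHom.ker PadicInt.toZMod := by rwa [PadicInt.ker_toZMod]
    exact one_ne_zero (h3.symm.trans this)
  have hu : ((1 + 3 * c) ^ 2) ^ 2 - 1 ≠ 0 := by
    have : ((1 + 3 * c) ^ 2) ^ 2 - 1 = 3 * c * (1 + 3 * c + 1) * ((1 + 3 * c) ^ 2 + 1) := by ring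
    rw [this]
    refine mul_ne_zero (mul_ne_zero (mul_ne_zero (by norm_num) hc) (nz _ ?_)) (nz _ ?_)
    · rw [map_add, h3, map_one]; rfl
    · rw [map_add, map_pow, h3, map_one]; rfl
  have ht : 3 * (2 + 3 * c) * r ≠ 0 := mul_ne_zero (mul_ne_zero (by norm_num) (nz _ (by
    rw [show 2 + 3 * c = 1 + 3 * c + 1 by ring, map_add, h3, map_one]; rfl))) (by rintro rfl; simp at hr)
  have hk := N.mul_mem hg (hN.conj_mem _ (N.inv_mem hg) (M 1 (3 * (2 + 3 * c) * r) 0 1 (by ring)))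
  obtain ⟨k0, k1, k2, k3, hd, e⟩ := ex (M a b c d h * (M 1 (3 * (2 + 3 * c) * r) 0 1 (by ring) *
    (M a b c d h)⁻¹ * (M 1 (3 * (2 + 3 * c) * r) 0 1 (by ring))⁻¹))
  rw [e] at hk
  simp only [inv, mul, inj] at e
  have e1 : k2 ≠ 0 := by
    rw [show k2 = -(3 * (2 + 3 * c) * r * c ^ 2) by linear_combination -e.2.2.1]
    exact neg_ne_zero.2 (mul_ne_zero ht (pow_ne_zero _ hc))
  have e2 : (1 + 3 * c) ^ 2 * (k0 + k3) = ((1 + 3 * c) ^ 2) ^ 2 + 1 := by
    rw [← e.1, ← e.2.2.2]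
    linear_combination (2 * (1 + 3 * c) ^ 2) * h +
      ((3 * (2 + 3 * c) * c) ^ 2 * ((1 + 3 * c) * r + 1)) * hr
  generalize (1 + 3 * c) ^ 2 = u at e2 hu
  clear e
  obtain ⟨x, hx | hx⟩ := ValuationRing.cond (u - k3) k2
  · have h1 := hN.conj_mem _ hk (M 1 0 (-x) 1 (by ring))
    have h0 : u - k3 ≠ 0 := fun e => e1 (by rw [← hx, e, zero_mul])
    have a1 : k0 + k1 * x = u := mul_left_cancel₀ h0 (by linear_combination k1 * hx + e2 - hd)
    refine ⟨u, k1, k3 - x * k1, by linear_combination hd - k3 * a1 - k1 * hx, ?_, hu⟩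
    convert h1 using 1
    simp only [inv, mul, inj]
    exact ⟨by linear_combination -a1, by ring, by linear_combination hx + x * a1, by ring⟩
  · have h1 := hN.conj_mem _ hk (M 0 1 (-1) x (by ring))
    have a1 : k0 * x + k1 = u * x := mul_left_cancel₀ e1 (by
      linear_combination (k0 - u) * hx + e2 - hd)
    refine ⟨u, -k2, k0 - x * k2, by linear_combination hd + k2 * a1 - k0 * hx, ?_, hu⟩
    convert h1 using 1
    simp only [inv, mul, inj]
    exact ⟨by linear_combination -hx, by ring, by linear_combination a1 - x * hx, by ring⟩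

lemma opn {g : G} (hg : g ∈ N) (hc : g 1 0 ≠ 0) : IsOpen (N : Set G) := by
  obtain ⟨u, y, w, h, h1, h2⟩ := tri hN hg hc
  have hU : ∀ x, u ^ 2 - 1 ∣ x → M 1 x 0 1 (by ring) ∈ N := by
    rintro _ ⟨x, rfl⟩
    convert N.mul_mem h1 (hN.conj_mem _ (N.inv_mem h1) (M 1 x 0 1 (by ring))) using 1
    simp only [inv, mul, inj]
    exact ⟨by linear_combination -h, by linear_combination x * h, by ring, by linear_combination -h⟩
  have hL : ∀ x, u ^ 2 - 1 ∣ x → M 1 0 x 1 (by ring) ∈ N := fun x hx => by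
    convert hN.conj_mem _ (hU _ hx.neg_right) (M 0 (-1) 1 0 (by ring)) using 1
    simp only [inv, mul, inj]
    exact ⟨by ring, by ring, by ring, by ring⟩
  have ct : ∀ i j, Continuous fun g : G => g i j := fun i j =>
    (continuous_apply_apply i j).comp continuous_subtype_val
  refine N.isOpen_of_mem_nhds (g := 1) (Filter.mem_of_superset (IsOpen.mem_nhds
    (s := {g : G | ‖g 0 0 - 1‖ < ‖u ^ 2 - 1‖ ∧ ‖g 0 1‖ < ‖u ^ 2 - 1‖ ∧ ‖g 1 0‖ < ‖u ^ 2 - 1‖})
    ((isOpen_lt ((ct 0 0).sub continuous_const).norm continuous_const).and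
      ((isOpen_lt (ct 0 1).norm continuous_const).and
        (isOpen_lt (ct 1 0).norm continuous_const))) (by simpa using h2))
    fun g hg => ?_)
  obtain ⟨a, b, c, d, h, rfl⟩ := ex g
  have dv : ∀ x : O, ‖x‖ < ‖u ^ 2 - 1‖ → u ^ 2 - 1 ∣ x := fun x hx => by
    obtain ⟨z, hz | hz⟩ := ValuationRing.cond (u ^ 2 - 1) x
    · exact ⟨z, hz.symm⟩
    · rw [← hz, norm_mul] at hx
      nlinarith [norm_nonneg x, z.norm_le_one]
  have d1 : u ^ 2 - 1 ∣ a - 1 := dv _ hg.1
  have d2 : u ^ 2 - 1 ∣ b := dv _ hg.2.1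
  have d3 : u ^ 2 - 1 ∣ c := dv _ hg.2.2
  obtain ⟨r, hr⟩ : ∃ r, a * r = 1 := by
    refine IsUnit.exists_right_inv (by_contra fun e => ?_)
    have h3 : ‖a - 1‖ < 1 := hg.1.trans_le (PadicInt.norm_le_one _)
    have := PadicInt.norm_lt_one_add (PadicInt.not_isUnit_iff.1 e) ((norm_neg _).trans_lt h3)
    simp at this
  have k := N.mul_mem (N.mul_mem (hL _ (d3.mul_right r)) (N.mul_mem (N.mul_mem
    (hL _ (d1.mul_right r).neg_right) (hN.conj_mem _ (hL _ d1) (M 1 1 0 1 (by ring))))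
    (hU _ (d1.mul_right r)))) (hU _ (d2.mul_right r))
  simp only [inv, mul] at k
  refine (inj.2 ⟨?_, ?_, ?_, ?_⟩ : _ = M a b c d h) ▸ k <;> grind

omit hN

theorem result : ∃ (G : Type) (_ : Group G) (_ : TopologicalSpace G), NonarchimedeanGroup G ∧
    CompactSpace G ∧ TopologicalSpace.MetrizableSpace G ∧ Uncountable G ∧
    ∀ N : Subgroup G, N.Normal → Finite N ∨ Finite (G ⧸ N) := by
  have e : IsClosedEmbedding (fun g i j => g i j : G → Fin 2 → Fin 2 → O) :=
    SpecialLinearGroup.isClosedEmbedding_val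
  have := e.compactSpace
  have := e.isEmbedding.metrizableSpace
  have : TotallyDisconnectedSpace G := e.isEmbedding.isTotallyDisconnected_range.1
    (isTotallyDisconnected_of_totallyDisconnectedSpace _)
  refine ⟨G, inferInstance, inferInstance, ⟨fun U hU => ?_⟩, ‹_›, ‹_›, ?_, fun N hN => ?_⟩
  · obtain ⟨V, h1, h2, h3⟩ := mem_nhds_iff.1 hU
    obtain ⟨H, hH⟩ := ProfiniteGrp.exist_openNormalSubgroup_sub_open_nhds_of_one h2 h3
    exact ⟨H.toOpenSubgroup, hH.trans h1⟩
  · have : Uncountable O := not_countable_iff.1 fun hc => by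
      obtain ⟨x, hx⟩ := nonempty_interior_of_iUnion_of_closed (f := fun x : O => {x})
        (fun _ => isClosed_singleton) (by simp [Set.iUnion_of_singleton])
      have : (𝓝[≠] x).NeBot := mem_closure_iff_nhdsWithin_neBot.1 (mem_closure_of_tendsto
        (f := fun n : ℕ => x + 3 ^ n) (by
          simpa using (tendsto_pow_atTop_nhds_zero_of_norm_lt_one
            ((PadicInt.norm_lt_one_iff_dvd (3 : O)).2 (by simp))).const_add x)
        (.of_forall fun n => by simp))
      simp at hx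
    exact Function.Injective.uncountable (f := fun x : O => M 1 x 0 1 (by ring)) fun a b h => (inj.1 h).2.1
  · by_cases h : ∃ g ∈ N, g 1 0 ≠ 0
    · obtain ⟨g, h1, h2⟩ := h
      exact .inr (N.quotient_finite_of_isOpen (opn hN h1 h2))
    push Not at h
    refine .inl (Set.Finite.subset (Set.toFinite {M 1 0 0 1 (by ring), M (-1) 0 0 (-1) (by ring)}) fun g hg => ?_)
    obtain ⟨a, b, c, d, hd, rfl⟩ := ex g
    have h1 := h _ hg
    have h2 := h _ (hN.conj_mem _ hg (M 0 (-1) 1 0 (by ring)))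
    have h3 := h _ (hN.conj_mem _ hg (M 1 0 1 1 (by ring)))
    simp only [inv, mul] at h2 h3
    simp [M] at h1 h2 h3
    subst h1 h2
    obtain rfl : a = d := by linear_combination h3
    simpa [inj] using mul_self_eq_one_iff.1 (by linear_combination hd : a * a = 1)

end Pool.Agent.Results.MP_847604_al.Neg
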